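import Pool.Agent.Helper40.BS.Asm

/-!
# A lower bound for 2-spanners of intersection graphs of balls in 3-space
-/

namespace Pool.Agent.Results.MP_444c55_co.LogSquared

open Pool.Agent.Helper40.BS

lemma pow_le_of_log (K m : ℕ) (hK : 1 ≤ K) (hm : 1 ≤ m)
    (h : (K : ℝ) * Real.log (256 * K ^ 2) ≤ Real.log m) : (256 * K ^ 2) ^ K ≤ m := by
  have hKr : (1 : ℝ) ≤ K := by exact_mod_cast hK
  have hmr : (0 : ℝ) < m := by exact_mod_cast hm
  have h1 : Real.log (((256 * K ^ 2) ^ K : ℕ) : ℝ) ≤ Real.log m := by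
    push_cast
    rw [Real.log_pow]
    exact h
  have h2 : (((256 * K ^ 2) ^ K : ℕ) : ℝ) ≤ m := by
    rw [Real.log_le_log_iff (by positivity) hmr] at h1
    exact h1
  exact_mod_cast h2

/-- For all large `n` there is a family of `n` distinct closed balls of positive radii in
Euclidean 3-space such that every 2-spanner of its intersection graph has at least
`c n (log n / log log n)^2` edges. -/
theorem result :
    ∃ c : ℝ, 0 < c ∧ ∃ n₀ : ℕ, ∀ n : ℕ, n₀ ≤ n →
      ∃ (ctr : Fin n → E3) (rad : Fin n → ℝ), (∀ i, 0 < rad i) ∧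
        (Function.Injective fun i => (ctr i, rad i)) ∧
        ∀ H : SimpleGraph (Fin n), IsTwoSpanner (interGraph ctr rad) H →
          c * n * (Real.log n / Real.log (Real.log n)) ^ 2 ≤ (H.edgeSet.ncard : ℝ) := by
  refine ⟨1 / 20480, by norm_num, ?_⟩
  have hlog : Filter.Tendsto (fun n : ℕ => Real.log (n : ℝ)) Filter.atTop Filter.atTop :=
    Real.tendsto_log_atTop.comp tendsto_natCast_atTop_atTop
  have hloglog : Filter.Tendsto (fun n : ℕ => Real.log (Real.log (n : ℝ))) Filter.atTop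
      Filter.atTop := Real.tendsto_log_atTop.comp hlog
  have h1 : ∀ᶠ n : ℕ in Filter.atTop, 6 ≤ Real.log (Real.log (n : ℝ)) :=
    hloglog.eventually_ge_atTop 6
  have h2 : ∀ᶠ n : ℕ in Filter.atTop, 16 ≤ Real.log (n : ℝ) := hlog.eventually_ge_atTop 16
  have h3 : ∀ᶠ n : ℕ in Filter.atTop,
      Real.log (Real.log (n : ℝ)) ≤ (1 / 8) * Real.log (n : ℝ) := by
    have h4 := Real.isLittleO_log_id_atTop.def (by norm_num : (0 : ℝ) < 1 / 8)
    have h5 := hlog.eventually h4
    filter_upwards [h5, h2] with n hn hn2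
    simp only [id_eq, Real.norm_eq_abs] at hn
    rw [abs_of_nonneg (by linarith : (0:ℝ) ≤ Real.log (n : ℝ))] at hn
    exact (le_abs_self _).trans hn
  have h6 : ∀ᶠ n : ℕ in Filter.atTop, 40 ≤ n := Filter.eventually_ge_atTop 40
  obtain ⟨n₀, hn₀⟩ := Filter.eventually_atTop.mp (h1.and (h2.and (h3.and h6)))
  refine ⟨n₀, fun n hn => ?_⟩
  obtain ⟨hll, hl, hlll, hn40⟩ := hn₀ n hn
  set l := Real.log (n : ℝ) with hl_def
  set ll := Real.log l with hll_def
  have hllpos : 0 < ll := by linarith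
  set x := l / (8 * ll) with hx
  have hx1 : 1 ≤ x := by
    rw [hx, le_div_iff₀ (by positivity)]; linarith
  set K := ⌊x⌋₊ with hKdef
  have hK1 : 1 ≤ K := by
    rw [hKdef]; exact Nat.le_floor (by exact_mod_cast hx1)
  have hKle : (K : ℝ) ≤ x := Nat.floor_le (by linarith)
  have hKge : x / 2 ≤ K := by
    have h7 : x < K + 1 := Nat.lt_floor_add_one x
    have h8 : (1 : ℝ) ≤ K := by exact_mod_cast hK1
    linarith
  set m := Nat.sqrt (n / 10) with hmdef
  have hm_le : 10 * m ^ 2 ≤ n := by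
    have h9 : m * m ≤ n / 10 := Nat.sqrt_le _
    have h10 : 10 * (n / 10) ≤ n := Nat.mul_div_le _ _
    nlinarith
  have hm1 : 1 ≤ m := by
    rw [hmdef]
    rw [Nat.le_sqrt]
    omega
  have hm_ge : n ≤ 40 * m ^ 2 := by
    have h11 : n / 10 < (m + 1) * (m + 1) := Nat.lt_succ_sqrt _
    have h12 : n < 10 * ((m + 1) * (m + 1)) := by omega
    nlinarith
  have hnpos : (0 : ℝ) < n := by
    have : 0 < n := by omega
    exact_mod_cast this
  have hmpos : (0 : ℝ) < m := by exact_mod_cast hm1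
  have hlogm : (3 / 8) * l ≤ Real.log m := by
    have h13 : (n : ℝ) ≤ 40 * (m : ℝ) ^ 2 := by exact_mod_cast hm_ge
    have h14 : l ≤ Real.log 40 + 2 * Real.log m := by
      calc l ≤ Real.log (40 * (m : ℝ) ^ 2) := Real.log_le_log hnpos h13
        _ = Real.log 40 + 2 * Real.log m := by
            rw [Real.log_mul (by norm_num) (by positivity), Real.log_pow]; norm_num
    have h15 : Real.log 40 ≤ 4 := by
      have h16 : (40 : ℝ) ≤ Real.exp 4 := by
        have h17 : (2.7 : ℝ) ≤ Real.exp 1 := by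
          have := Real.exp_one_gt_d9; linarith
        calc (40 : ℝ) ≤ 2.7 ^ 4 := by norm_num
          _ ≤ (Real.exp 1) ^ 4 := pow_le_pow_left₀ (by norm_num) h17 4
          _ = Real.exp 4 := by rw [← Real.exp_nat_mul]; norm_num
      calc Real.log 40 ≤ Real.log (Real.exp 4) := Real.log_le_log (by norm_num) h16
        _ = 4 := Real.log_exp 4
    linarith
  have hpow : (256 * K ^ 2) ^ K ≤ m := by
    apply pow_le_of_log K m hK1 hm1
    have hKr : (1 : ℝ) ≤ K := by exact_mod_cast hK1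
    have hxl : x ≤ l := by
      rw [hx]
      apply div_le_self (by linarith)
      linarith
    have h18 : Real.log (256 * (K : ℝ) ^ 2) ≤ 3 * ll := by
      rw [Real.log_mul (by norm_num) (by positivity), Real.log_pow]
      have h19 : Real.log (K : ℝ) ≤ ll := Real.log_le_log (by linarith) (hKle.trans hxl)
      have h20 : Real.log 256 ≤ 6 := by
        have h21 : (256 : ℝ) ≤ Real.exp 6 := by
          have h17 : (2.7 : ℝ) ≤ Real.exp 1 := by
            have := Real.exp_one_gt_d9; linarith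
          calc (256 : ℝ) ≤ 2.7 ^ 6 := by norm_num
            _ ≤ (Real.exp 1) ^ 6 := pow_le_pow_left₀ (by norm_num) h17 6
            _ = Real.exp 6 := by rw [← Real.exp_nat_mul]; norm_num
        calc Real.log 256 ≤ Real.log (Real.exp 6) := Real.log_le_log (by norm_num) h21
          _ = 6 := Real.log_exp 6
      push_cast
      linarith
    calc (K : ℝ) * Real.log (256 * (K : ℝ) ^ 2) ≤ x * (3 * ll) := by
          apply mul_le_mul hKle h18 _ (by linarith)
          apply Real.log_nonneg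
          nlinarith
      _ = (3 / 8) * l := by rw [hx]; field_simp
      _ ≤ Real.log m := hlogm
  obtain ⟨ctr, rad, hr, hinj, hsp⟩ := assemble n K m hK1 hpow hm_le
  refine ⟨ctr, rad, hr, hinj, fun H hH => ?_⟩
  have h22 := hsp H hH
  have h23 : ((K : ℝ) ^ 2 * (m : ℝ) ^ 2) ≤ 2 * (H.edgeSet.ncard : ℝ) := by exact_mod_cast h22
  have h24 : (n : ℝ) ≤ 40 * (m : ℝ) ^ 2 := by exact_mod_cast hm_ge
  have h25 : (l / ll) ^ 2 = 64 * x ^ 2 := by rw [hx]; field_simp; ring
  rw [h25]
  have h26 : x ^ 2 ≤ 4 * (K : ℝ) ^ 2 := by nlinarith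
  have h27 : (n : ℝ) * x ^ 2 ≤ (40 * (m : ℝ) ^ 2) * (4 * (K : ℝ) ^ 2) :=
    mul_le_mul h24 h26 (sq_nonneg x) (by positivity)
  calc 1 / 20480 * (n : ℝ) * (64 * x ^ 2) = (1 / 320) * ((n : ℝ) * x ^ 2) := by ring
    _ ≤ (1 / 320) * ((40 * (m : ℝ) ^ 2) * (4 * (K : ℝ) ^ 2)) := by linarith
    _ = (1 / 2) * ((K : ℝ) ^ 2 * (m : ℝ) ^ 2) := by ring
    _ ≤ _ := by linarith

end Pool.Agent.Results.MP_444c55_co.LogSquared
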